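import Pool.Agent.H715.TW.Stm
import Pool.Graph.R_seed8.H528R2.DiffBase

/-!
# DIFF: the valuation of `zz m - zz n` (adapted from `H528R2/Diff.lean`)
-/

set_option autoImplicit false

namespace Pool.Agent.H860.TW

open Pool.Agent.H715.TW
open Pool.Agent.H528R2 (Vge)
open Pool.Agent.H528R2.DB (gv_mono gv_neg gv_add gv_sub gv_mul gv_int gv_nat gv_ofNat
  gv_one_int_iff gval_of gv_prime gv_of_sq gv_sq gval_add DD key)

lemma dd_eq_DD (s : ℕ) (n : ℤ) : dd s n = DD s (zz n) := rfl

lemma pole_dd {s : ℕ} (hs : s.Prime) {n : ℤ} (h : padicValRat s (zz n) < 0) :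
    padicValRat s (zz n) = -2 * (dd s n : ℤ) ∧ 1 ≤ dd s n := by
  obtain ⟨d, hd, h1, _⟩ := pole_val hs h
  have h1' : padicValRat s (zz n) = -2 * d := h1
  have : dd s n = d := by
    unfold dd; rw [h1']; omega
  rw [this]; exact ⟨h1', hd⟩

lemma dd_of_nonneg {s : ℕ} {n : ℤ} (h : 0 ≤ padicValRat s (zz n)) : dd s n = 0 := by
  unfold dd; omega

section units

variable {s : ℕ} [hs : Fact s.Prime]

lemma gv_yy {n : ℤ} (hn : n ≠ 0) (h : Vge s 0 (zz n)) : Vge s 0 (yy n) := by
  apply gv_of_sq
  rw [curve_eq hn]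
  have e : zz n ^ 3 + 105 * zz n ^ 2 + 2048 * zz n
      = zz n * (zz n * zz n + 105 * zz n + 2048) := by ring
  rw [e]
  have h1 := gv_mul h (gv_add (gv_add (gv_mul h h) (gv_mul (gv_ofNat 105) h)) (gv_ofNat 2048))
  simpa using h1

lemma not_vge_2048 (h2 : s ≠ 2) : ¬ Vge s 1 (2048 : ℚ) := by
  intro h
  have h'' : Vge s 1 ((2048 : ℤ) : ℚ) := by simpa using h
  have h3 : s ∣ 2 ^ 11 := by exact_mod_cast gv_one_int_iff.1 h''
  exact h2 ((Nat.prime_dvd_prime_iff_eq hs.out Nat.prime_two).1 (hs.out.dvd_of_dvd_pow h3))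

lemma not_vge_2833 : ¬ Vge s 2 (2833 : ℚ) := by
  intro h
  have h1 : (2 : ℤ) ≤ padicValRat s (2833 : ℚ) := h.resolve_left (by norm_num)
  have e : (2833 : ℚ) = ((2833 : ℕ) : ℚ) := by norm_num
  rw [e, padicValRat.of_nat] at h1
  have h2 : 2 ≤ padicValNat s 2833 := by exact_mod_cast h1
  have h3 : s ^ 2 ∣ 2833 := (padicValNat_dvd_iff_le (by norm_num)).2 h2
  have hp : Nat.Prime 2833 := by norm_num
  rcases (Nat.dvd_prime hp).1 h3 with h4 | h4
  · have := hs.out.one_lt
    nlinarith
  · rcases le_or_gt s 53 with h5 | h5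
    · nlinarith
    · nlinarith

/-- the integral case -/
lemma diff_int {m n : ℤ} (h2 : s ≠ 2) (hm : m ≠ 0) (hn : n ≠ 0) (h : zz m ≠ zz n)
    (hi1 : Vge s 0 (zz m)) (hi2 : Vge s 0 (zz n)) :
    (dd s (m + n) : ℤ) + (dd s (m - n) : ℤ) = padicValRat s (zz m - zz n) := by
  rw [dd_eq_DD, dd_eq_DD, zz_add_formula hm hn h, zz_sub_formula hm hn h]
  have hy1 := gv_yy hm hi1
  have hy2 := gv_yy hn hi2
  have hg : Vge s 0 (zz m * zz m + zz m * zz n + zz n * zz n + 105 * (zz m + zz n) + 2048) := by
    refine gv_add (gv_add (gv_add (gv_add ?_ ?_) ?_) ?_) (gv_ofNat 2048)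
    · simpa using gv_mul hi1 hi1
    · simpa using gv_mul hi1 hi2
    · simpa using gv_mul hi2 hi2
    · simpa using gv_mul (gv_ofNat (s := s) 105) (gv_add hi1 hi2)
  refine key (g := zz m * zz m + zz m * zz n + zz n * zz n + 105 * (zz m + zz n) + 2048) h h2
    hy1 hy2 hg (gv_sub (gv_sub (gv_neg (gv_ofNat 105)) hi1) hi2) (gv_sub hi1 hi2) ?_ ?_
  · linear_combination (curve_eq hm) - curve_eq hn
  · intro hd
    by_contra hcon
    push Not at hcon
    obtain ⟨hY, hG⟩ := hcon
    -- f'(Z1) is in the maximal ideal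
    have hf' : Vge s 1 (3 * (zz m * zz m) + 210 * zz m + 2048) := by
      have a1 : Vge s 0 (2 * zz m + zz n + 105) :=
        gv_add (gv_add (by simpa using gv_mul (gv_ofNat (s := s) 2) hi1) hi2) (gv_ofNat 105)
      have a2 : Vge s 1 ((zz m - zz n) * (2 * zz m + zz n + 105)) := by
        simpa using gv_mul hd a1
      have a3 := gv_add hG a2
      have e : zz m * zz m + zz m * zz n + zz n * zz n + 105 * (zz m + zz n) + 2048 +
          (zz m - zz n) * (2 * zz m + zz n + 105) = 3 * (zz m * zz m) + 210 * zz m + 2048 := by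
        ring
      rwa [e] at a3
    have hnZ : ¬ Vge s 1 (zz m) := by
      intro hZ
      have a1 : Vge s 0 (3 * zz m + 210) :=
        gv_add (by simpa using gv_mul (gv_ofNat (s := s) 3) hi1) (gv_ofNat 210)
      have a2 : Vge s 1 (zz m * (3 * zz m + 210)) := by simpa using gv_mul hZ a1
      have a3 := gv_sub hf' a2
      have e : 3 * (zz m * zz m) + 210 * zz m + 2048 - zz m * (3 * zz m + 210) = 2048 := by ring
      rw [e] at a3
      exact not_vge_2048 h2 a3
    obtain ⟨hz0, hzv⟩ := gval_of hi1 hnZ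
    -- `q = x² + 105 x + 2048` has valuation at least two
    have hq : Vge s 2 (zz m * zz m + 105 * zz m + 2048) := by
      have h1 : Vge s 2 (zz m * (zz m * zz m + 105 * zz m + 2048)) := by
        have e : zz m * (zz m * zz m + 105 * zz m + 2048) = yy m * yy m := by
          linear_combination - curve_eq hm
        rw [e]
        exact gv_mul hY hY
      have hinv : Vge s 0 (zz m)⁻¹ := by
        refine Or.inr ?_
        rw [padicValRat.inv, hzv]; simp
      have h3 := gv_mul hinv h1
      have e : (zz m)⁻¹ * (zz m * (zz m * zz m + 105 * zz m + 2048)) =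
          zz m * zz m + 105 * zz m + 2048 := by
        rw [← mul_assoc, inv_mul_cancel₀ hz0, one_mul]
      rw [e] at h3
      simpa using h3
    have hq1 : Vge s 1 (zz m * zz m + 105 * zz m + 2048) := gv_mono (by norm_num) hq
    have b1 : Vge s 1 (zz m * (2 * zz m + 105)) := by
      have := gv_sub hf' hq1
      have e : 3 * (zz m * zz m) + 210 * zz m + 2048 - (zz m * zz m + 105 * zz m + 2048)
        = zz m * (2 * zz m + 105) := by ring
      rwa [e] at this
    have hZ1 : Vge s 0 (2 * zz m + 105) :=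
      gv_add (by simpa using gv_mul (gv_ofNat (s := s) 2) hi1) (gv_ofNat 105)
    have b2 := (gv_prime hi1 hZ1 b1).resolve_left hnZ
    have b3 : Vge s 2 ((2 * zz m + 105) * (2 * zz m + 105)) := gv_mul b2 b2
    have b4 : Vge s 2 (4 * (zz m * zz m + 105 * zz m + 2048)) := by
      simpa using gv_mul (gv_ofNat (s := s) 4) hq
    have b5 := gv_sub b3 b4
    have e : (2 * zz m + 105) * (2 * zz m + 105) - 4 * (zz m * zz m + 105 * zz m + 2048) =
        2833 := by ring
    rw [e] at b5
    exact not_vge_2833 b5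

end units

theorem diff : S_DIFF := by
  intro s m n hsp hs2 hm hn h1 h2
  haveI : Fact s.Prime := ⟨hsp⟩
  have hne := zz_ne' hm hn h1 h2
  have hne0 : zz m - zz n ≠ 0 := sub_ne_zero.2 hne
  have hzm : zz m ≠ 0 := zz_ne0 hm
  have hzn : zz n ≠ 0 := zz_ne0 hn
  have hp0 : m + n ≠ 0 := fun h => h2 (by omega)
  have hm0 : m - n ≠ 0 := fun h => h1 (by omega)
  by_cases p1 : padicValRat s (zz m) < 0 <;> by_cases p2 : padicValRat s (zz n) < 0
  · -- both poles
    have q1 := Rank.zz_add_pole hsp p1 p2 hp0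
    have p2' : padicValRat s (zz (-n)) < 0 := by rwa [zz_neg]
    have q2 := Rank.zz_add_pole hsp p1 p2' (by rwa [← sub_eq_add_neg])
    rw [← sub_eq_add_neg] at q2
    obtain ⟨d1, -⟩ := pole_dd hsp q1
    obtain ⟨d2, -⟩ := pole_dd hsp q2
    obtain ⟨e1, -⟩ := pole_dd hsp p1
    obtain ⟨e2, -⟩ := pole_dd hsp p2
    have hz1 : zz (m + n) ≠ 0 := zz_ne0 hp0
    have hz2 : zz (m - n) ≠ 0 := zz_ne0 hm0
    have hpr := congrArg (padicValRat s) (zz_prod_formula hm hn hne)
    have hmn : padicValRat s (zz m * zz n) < 0 := by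
      rw [padicValRat.mul hzm hzn]; omega
    obtain ⟨hne65, hv65⟩ := gval_add (s := s) (x := zz m * zz n) (y := -2048)
      (mul_ne_zero hzm hzn) (gv_neg (gv_mono (by omega) (gv_ofNat 2048)))
    rw [← sub_eq_add_neg] at hne65 hv65
    rw [padicValRat.mul hz1 hz2, padicValRat.pow, padicValRat.div hne65 hne0, hv65,
      padicValRat.mul hzm hzn, d1, d2, e1, e2] at hpr
    push_cast at hpr
    linarith
  · -- pole at m only
    have q1 : ¬ padicValRat s (zz (m + n)) < 0 := by
      intro h
      apply p2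
      have p1' : padicValRat s (zz (-m)) < 0 := by rwa [zz_neg]
      have := Rank.zz_add_pole hsp h p1' (by omega)
      have e : m + n + -m = n := by ring
      rwa [e] at this
    have q2 : ¬ padicValRat s (zz (m - n)) < 0 := by
      intro h
      apply p2
      have p1' : padicValRat s (zz (-m)) < 0 := by rwa [zz_neg]
      have := Rank.zz_add_pole hsp h p1' (by omega)
      have e : m - n + -m = -n := by ring
      rwa [e, zz_neg] at this
    rw [dd_of_nonneg (not_lt.1 q1), dd_of_nonneg (not_lt.1 q2), dd_of_nonneg (not_lt.1 p2)]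
    obtain ⟨e1, -⟩ := pole_dd hsp p1
    have : padicValRat s (zz m - zz n) = padicValRat s (zz m) := by
      rw [sub_eq_add_neg]
      exact (gval_add (s := s) hzm (gv_neg (Or.inr (by omega)))).2
    rw [this, e1]
    push_cast
    ring
  · -- pole at n only
    have q1 : ¬ padicValRat s (zz (m + n)) < 0 := by
      intro h
      apply p1
      have p1' : padicValRat s (zz (-n)) < 0 := by rwa [zz_neg]
      have := Rank.zz_add_pole hsp h p1' (by omega)
      have e : m + n + -n = m := by ring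
      rwa [e] at this
    have q2 : ¬ padicValRat s (zz (m - n)) < 0 := by
      intro h
      apply p1
      have := Rank.zz_add_pole hsp h p2 (by omega)
      have e : m - n + n = m := by ring
      rwa [e] at this
    rw [dd_of_nonneg (not_lt.1 q1), dd_of_nonneg (not_lt.1 q2), dd_of_nonneg (not_lt.1 p1)]
    obtain ⟨e1, -⟩ := pole_dd hsp p2
    have : padicValRat s (zz m - zz n) = padicValRat s (zz n) := by
      have e : zz m - zz n = -zz n + zz m := by ring
      rw [e]
      have := (gval_add (s := s) (x := -zz n) (y := zz m) (neg_ne_zero.2 hzn)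
        (Or.inr (by rw [padicValRat.neg]; omega))).2
      rw [this, padicValRat.neg]
    rw [this, e1]
    push_cast
    ring
  · have := diff_int (s := s) hs2 hm hn hne (Or.inr (not_lt.1 p1)) (Or.inr (not_lt.1 p2))
    rw [dd_of_nonneg (not_lt.1 p1), dd_of_nonneg (not_lt.1 p2)]
    push_cast
    linarith

end Pool.Agent.H860.TW
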